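import Pool.Agent.H47.RP.Targets
import Pool.Agent.H28.LFP.ENTC
import Pool.Agent.H91.LF.Basic

/-!
# Row RAD of the board rpr: decoupling for words with letters in a finite set
-/

set_option autoImplicit false

open MeasureTheory ProbabilityTheory Filter Topology Finset

namespace Pool.Agent.H95.RPR

open Pool.Agent.H47.RP Pool.Agent.H36.RP
open Pool.Agent.H91.LF (Mean Dil Bdd)
open Pool.Agent.H28.LFP (blk blk_le decc)

/-- the constant vector -/
def cst (r : ℤ) : Fin 1 → ℤ := fun _ => r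

theorem add_cst (ω : Fin 1 → ℤ) (r : ℤ) : (ω + cst r) 0 = ω 0 + r := rfl

open Classical in
/-- the mean of the indicator function of a residue class -/
theorem E_class (M : Mean 1) (p : ℕ) (hp : 0 < p) :
    (p : ℝ) * M.E (fun ω => if (p : ℤ) ∣ ω 0 then (1 : ℝ) else 0) = 1 := by
  set f : (Fin 1 → ℤ) → ℝ := fun ω => if (p : ℤ) ∣ ω 0 then (1 : ℝ) else 0 with hf
  have hb : Bdd f := ⟨1, fun ω => by
    rw [hf]
    simp only
    split_ifs <;> simp⟩
  have h1 : ∀ r : ℕ, M.E (fun ω => f (ω + cst r)) = M.E f := fun r =>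
    M.shift (cst r) f hb
  have h2 := M.E_sum (range p) (fun r ω => f (ω + cst r))
    (fun r _ => Pool.Agent.H91.LF.bdd_comp hb _)
  have h3 : (fun ω : Fin 1 → ℤ => ∑ r ∈ range p, f (ω + cst r)) = fun _ => 1 := by
    funext ω
    obtain ⟨r, hr⟩ : ∃ r : ℕ, (r : ℤ) = (-(ω 0)) % (p : ℤ) :=
      ⟨((-(ω 0)) % (p : ℤ)).toNat, Int.toNat_of_nonneg (Int.emod_nonneg _ (by omega))⟩
    have hrp : r < p := by
      have := Int.emod_lt_of_pos (-(ω 0)) (b := (p : ℤ)) (by omega)
      omega
    rw [Finset.sum_eq_single r]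
    · have h4 : (p : ℤ) ∣ (ω + cst r) 0 := by
        rw [add_cst, hr]
        have h5 := Int.emod_add_mul_ediv (-(ω 0)) (p : ℤ)
        exact ⟨-((-(ω 0)) / (p : ℤ)), by linarith⟩
      rw [hf]
      exact if_pos h4
    · intro s hs hsr
      have hsp := Finset.mem_range.1 hs
      have h4 : ¬ (p : ℤ) ∣ (ω + cst s) 0 := by
        intro h5
        rw [add_cst] at h5
        have h6 : (p : ℤ) ∣ (ω 0 + r) := by
          rw [hr]
          have h7 := Int.emod_add_mul_ediv (-(ω 0)) (p : ℤ)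
          exact ⟨-((-(ω 0)) / (p : ℤ)), by linarith⟩
        have h8 : (p : ℤ) ∣ ((s : ℤ) - r) := by
          have := dvd_sub h5 h6
          have e : ω 0 + (s : ℤ) - (ω 0 + r) = s - r := by ring
          rwa [e] at this
        have h9 : ((s : ℤ) - r) = 0 := by
          refine Int.eq_zero_of_abs_lt_dvd h8 ?_
          rw [abs_lt]
          constructor <;> omega
        apply hsr
        omega
      rw [hf]
      exact if_neg h4
    · intro h4
      exact absurd (Finset.mem_range.2 hrp) h4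
  rw [h3, M.one] at h2
  rw [h2, Finset.sum_congr rfl fun r _ => h1 r, Finset.sum_const, Finset.card_range, nsmul_eq_mul]

open Classical in
/-- the mean over a residue class of a function bounded by one -/
theorem abs_E_class (M : Mean 1) (p : ℕ) (hp : 0 < p) (G : (Fin 1 → ℤ) → ℝ)
    (hG : ∀ ω, |G ω| ≤ 1) :
    |M.E (fun ω => (p : ℝ) * if (p : ℤ) ∣ ω 0 then G ω else 0)| ≤ 1 := by
  have hp0 : (0 : ℝ) ≤ p := Nat.cast_nonneg p
  have hb1 : Bdd (fun ω : Fin 1 → ℤ => (p : ℝ) * if (p : ℤ) ∣ ω 0 then G ω else 0) := by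
    refine ⟨p, fun ω => ?_⟩
    rw [abs_mul, abs_of_nonneg hp0]
    split_ifs
    · exact mul_le_of_le_one_right hp0 (hG ω)
    · rw [abs_zero, mul_zero]
      exact hp0
  have hb2 : Bdd (fun ω : Fin 1 → ℤ => if (p : ℤ) ∣ ω 0 then (1 : ℝ) else 0) :=
    ⟨1, fun ω => by
      by_cases h : (p : ℤ) ∣ ω 0
      · simp [h]
      · simp [h]⟩
  have hb3 := Pool.Agent.H91.LF.bdd_smul (p : ℝ) hb2
  have h1 : M.E (fun ω => (p : ℝ) * if (p : ℤ) ∣ ω 0 then (1 : ℝ) else 0) = 1 := by
    rw [M.smul (p : ℝ) _ hb2]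
    exact E_class M p hp
  rw [abs_le]
  constructor
  · have h2 := M.E_mono (Pool.Agent.H91.LF.bdd_neg hb1) hb3 (fun ω => by
      by_cases h : (p : ℤ) ∣ ω 0
      · rw [if_pos h, if_pos h]
        have := (abs_le.1 (hG ω)).1
        nlinarith
      · rw [if_neg h, if_neg h]
        simp)
    rw [M.E_neg hb1, h1] at h2
    linarith
  · have h2 := M.E_mono hb1 hb3 (fun ω => by
      by_cases h : (p : ℤ) ∣ ω 0
      · rw [if_pos h, if_pos h]
        have := (abs_le.1 (hG ω)).2
        nlinarith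
      · rw [if_neg h, if_neg h])
    rw [h1] at h2
    exact h2

theorem pf_RAD : T_RAD := by
  classical
  intro M A _ x H
  refine ⟨4 * (((4 * H + 2 : ℕ) : ℝ) * Real.log (Fintype.card A)), fun g hg hloc S hS => ?_⟩
  set G : ℕ → (Fin 1 → ℤ) → ℝ := fun p ω => g p (fun k => x (ω 0 + p * (k + H))) with hGdef
  have hGb : ∀ p ω, |G p ω| ≤ 1 := fun p ω => hg p _
  set P := S.sup id with hP
  have hdec := decc M (fun ω : Fin 1 → ℤ => x (ω 0)) (fun _ => 1) 1 (4 * H + 2) P G S
    (fun p hp => ⟨hS p hp, Finset.le_sup (f := id) hp, Nat.coprime_one_left p⟩)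
    (fun p _ => hGb p) (by
      intro p hp m hpm ω ω' hwin k hk
      refine hloc p _ _ fun j hj => ?_
      have hj2 := abs_le.1 hj
      have hk2 := hk 0
      have h1 : p ≤ 2 ^ (m + 1) := blk_le hpm
      obtain ⟨a, ha⟩ : ∃ a : ℕ, (a : ℤ) = k 0 + p * (j + H) :=
        ⟨(k 0 + p * (j + H)).toNat, Int.toNat_of_nonneg (by
          have : 0 ≤ (p : ℤ) * (j + H) := mul_nonneg (by omega) (by omega)
          omega)⟩
      have h2 : a < (4 * H + 2) * 2 ^ m := by
        have h3 : (a : ℤ) < p * (2 * H + 1) := by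
          rw [ha]
          have : (p : ℤ) * (j + H) ≤ p * (2 * H) := mul_le_mul_of_nonneg_left (by omega) (by omega)
          linarith
        have h4 : a < p * (2 * H + 1) := by exact_mod_cast h3
        have h5 : p * (2 * H + 1) ≤ 2 ^ (m + 1) * (2 * H + 1) := Nat.mul_le_mul_right _ h1
        have h6 : 2 ^ (m + 1) * (2 * H + 1) = (4 * H + 2) * 2 ^ m := by rw [pow_succ]; ring
        omega
      have h3 := hwin a h2
      have e1 : ∀ w : Fin 1 → ℤ, (w + ((1 : ℕ) : ℤ) • k) 0 + p * (j + H) =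
          (w + (a : ℤ) • (fun _ => (1 : ℤ) : Fin 1 → ℤ)) 0 := by
        intro w
        simp only [Pi.add_apply, Pi.smul_apply, smul_eq_mul, Nat.cast_one, one_mul, mul_one, ha]
        ring
      rw [e1, e1, h3])
    (by
      intro p hp
      have h1 := abs_E_class M p (hS p hp).pos (G p) (hGb p)
      have e : (fun ω : Fin 1 → ℤ => (p : ℝ) ^ 1 * if ∀ i, (p : ℤ) ∣ ω i then G p ω else 0) =
          fun ω => (p : ℝ) * if (p : ℤ) ∣ ω 0 then G p ω else 0 := by
        funext ω
        rw [pow_one]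
        congr 1
        refine if_congr ⟨fun h => h 0, fun h i => ?_⟩ rfl rfl
        rw [Subsingleton.elim i 0]
        exact h
      rw [e]
      exact h1)
    (fun p _ => M.abs_E_le (hGb p))
  refine le_of_eq_of_le (Finset.sum_congr rfl fun p hp => ?_) hdec
  have hv : ∀ ω : Fin 1 → ℤ, G p ω =
      g p (fun k => x ((ω + cst (p * H)) 0 + p * k)) := by
    intro ω
    simp only [hGdef]
    congr 1
    funext k
    congr 1
    rw [add_cst]
    ring
  have e1 : M.E (G p) = M.E (fun ω => g p (fun k => x (ω 0 + p * k))) := by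
    have h1 := M.shift (cst (p * H)) (fun ω => g p (fun k => x (ω 0 + p * k)))
      ⟨1, fun ω => hg p _⟩
    rw [← h1]
    congr 1
    funext ω
    exact hv ω
  have e2 : M.E (fun ω => (p : ℝ) ^ 1 * if ∀ i, (p : ℤ) ∣ ω i then G p ω else 0) =
      M.E (fun ω => (p : ℝ) * if (p : ℤ) ∣ ω 0 then g p (fun k => x (ω 0 + p * k)) else 0) := by
    have h1 := M.shift (cst (p * H)) (fun ω => (p : ℝ) *
      if (p : ℤ) ∣ ω 0 then g p (fun k => x (ω 0 + p * k)) else 0) ⟨p, fun ω => by
        rw [abs_mul, abs_of_nonneg (Nat.cast_nonneg p)]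
        split_ifs
        · exact mul_le_of_le_one_right (Nat.cast_nonneg p) (hg p _)
        · rw [abs_zero, mul_zero]
          exact Nat.cast_nonneg p⟩
    rw [← h1]
    congr 1
    funext ω
    rw [pow_one, hv ω]
    congr 1
    refine if_congr ?_ rfl rfl
    have h2 : (p : ℤ) ∣ (ω + cst (p * H)) 0 ↔ (p : ℤ) ∣ ω 0 := by
      rw [add_cst]
      exact dvd_add_left (Dvd.intro _ rfl)
    rw [h2]
    refine ⟨fun h => h 0, fun h i => ?_⟩
    rw [Subsingleton.elim i 0]
    exact h
  rw [e1, e2]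

end Pool.Agent.H95.RPR
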