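import Pool.Agent.H95.RP.GEN
import Pool.Agent.H47.RP.Targets2

/-!
# The conditional moments generate the remote past (MP_c59857_nt, board rpr, row RGN)

`Pool.Agent.H47.RP.bias κ q` is the sigma algebra generated by the conditional moments of the
coordinates `x k`, `k ≤ q`, given the remote past. If the coordinates are independent given the
remote past, then every bounded function measurable for the remote past is almost everywhere equal
to a function measurable for `bias κ q`, for every `q`.
-/

set_option autoImplicit false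

open MeasureTheory ProbabilityTheory Filter Topology Finset

namespace Pool.Agent.H95.RPR

open Pool.Agent.H89.MT (I1 X z1)
open Pool.Agent.H36.RP (past past_le remote remote_le remote_le_past Local T_APX)
open Pool.Agent.H47.RP (bias T_RGN)
open Pool.Agent.H95.RP (past_dep meas_coord)

theorem bias_le (κ : Measure X) (q : ℤ) : bias κ q ≤ remote := by
  refine iSup_le fun k => iSup_le fun _ => iSup_le fun j => ?_
  exact (stronglyMeasurable_condExp.measurable).comap_le

theorem meas_mom (κ : Measure X) {q k : ℤ} (h : k ≤ q) (j : ℕ) :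
    Measurable[bias κ q] (κ[fun x : X => (x k : ℝ) ^ j | remote]) := by
  rw [measurable_iff_comap_le]
  exact le_iSup_of_le k (le_iSup_of_le h (le_iSup_of_le j le_rfl))

theorem int_pow (κ : Measure X) [IsProbabilityMeasure κ] (k : ℤ) (j : ℕ) :
    Integrable (fun x : X => (x k : ℝ) ^ j) κ := by
  refine Integrable.of_bound ((meas_coord k).pow_const j).aestronglyMeasurable 1
    (ae_of_all _ fun x => ?_)
  have h := abs_le.2 (x k).2
  rw [Real.norm_eq_abs, abs_pow]
  exact pow_le_one₀ (abs_nonneg _) h

/-- Integrable functions whose conditional mean is measurable for `bias κ q` up to null sets. -/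
def Good (κ : Measure X) (q : ℤ) (f : X → ℝ) : Prop :=
  Integrable f κ ∧ ∃ h : X → ℝ, Measurable[bias κ q] h ∧ κ[f | remote] =ᵐ[κ] h

theorem good_congr {κ : Measure X} {q : ℤ} {f g : X → ℝ} (h : f =ᵐ[κ] g) (hf : Good κ q f) :
    Good κ q g := by
  obtain ⟨h1, h2, h3, h4⟩ := hf
  exact ⟨h1.congr h, h2, h3, (condExp_congr_ae h.symm).trans h4⟩

theorem good_sum {κ : Measure X} {q : ℤ} {ι : Type*} (s : Finset ι) (c : ι → ℝ)
    (f : ι → X → ℝ) (hf : ∀ i ∈ s, Good κ q (f i)) :
    Good κ q (∑ i ∈ s, c i • f i) := by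
  classical
  have h1 : ∀ i : ι, ∃ h : X → ℝ, i ∈ s → (Measurable[bias κ q] h ∧
      κ[f i | remote] =ᵐ[κ] h) := by
    intro i
    by_cases hi : i ∈ s
    · obtain ⟨-, h, h2, h3⟩ := hf i hi
      exact ⟨h, fun _ => ⟨h2, h3⟩⟩
    · exact ⟨fun _ => 0, fun h => absurd h hi⟩
  choose h h2 using h1
  refine ⟨integrable_finsetSum' s fun i hi => (hf i hi).1.smul _, fun x => ∑ i ∈ s, c i * h i x,
    Finset.measurable_fun_sum s fun i hi => (h2 i hi).1.const_mul _, ?_⟩
  refine (condExp_finsetSum (fun i hi => (hf i hi).1.smul _) _).trans ?_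
  have h4 : ∀ᵐ x ∂κ, ∀ i ∈ s, (κ[c i • f i | remote]) x = c i * h i x := by
    rw [Filter.eventually_all_finset]
    intro i hi
    filter_upwards [condExp_smul (c i) (f i) remote (μ := κ), (h2 i hi).2] with x h5 h6
    rw [h5, Pi.smul_apply, h6, smul_eq_mul]
  filter_upwards [h4] with x h4
  rw [Finset.sum_apply]
  exact Finset.sum_congr rfl fun i hi => h4 i hi

/-- Closure in mean. -/
theorem good_lim {κ : Measure X} [IsProbabilityMeasure κ] {q : ℤ} {f : X → ℝ}
    (hf : Integrable f κ)
    (H : ∀ e : ℝ, 0 < e → ∃ g : X → ℝ, Good κ q g ∧ ∫ x, |g x - f x| ∂κ ≤ e) :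
    Good κ q f := by
  set F : X → ℝ := κ[f | remote] with hF
  have hFm : Measurable[remote] F := stronglyMeasurable_condExp.measurable
  have hFi : Integrable F κ := integrable_condExp
  have h1 : ∀ j : ℕ, ∃ h : X → ℝ, Measurable[bias κ q] h ∧ Integrable h κ ∧
      ∫ x, |h x - F x| ∂κ ≤ 1 / ((j : ℝ) + 1) := by
    intro j
    obtain ⟨g, ⟨hg, h, h2, h3⟩, h4⟩ := H (1 / ((j : ℝ) + 1)) (by positivity)
    refine ⟨h, h2, integrable_condExp.congr h3, ?_⟩
    have h5 : ∫ x, |h x - F x| ∂κ = ∫ x, |(κ[g - f | remote]) x| ∂κ := by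
      refine integral_congr_ae ?_
      filter_upwards [h3, condExp_sub hg hf remote] with x h6 h7
      rw [h7, Pi.sub_apply, h6]
    rw [h5]
    exact (integral_abs_condExp_le (g - f)).trans h4
  choose h h2 h3 h4 using h1
  have h5 : Tendsto (fun j => eLpNorm (h j - F) 1 κ) atTop (𝓝 0) := by
    have h6 : ∀ j, eLpNorm (h j - F) 1 κ = ENNReal.ofReal (∫ x, |h j x - F x| ∂κ) := by
      intro j
      rw [eLpNorm_one_eq_lintegral_enorm, ← ofReal_integral_norm_eq_lintegral_enorm
        ((h3 j).sub hFi)]
      rfl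
    simp only [h6]
    have h7 : Tendsto (fun j : ℕ => ∫ x, |h j x - F x| ∂κ) atTop (𝓝 0) :=
      squeeze_zero (fun j => integral_nonneg fun x => abs_nonneg _) h4
        tendsto_one_div_add_atTop_nhds_zero_nat
    have h8 := (ENNReal.continuous_ofReal.tendsto 0).comp h7
    rw [ENNReal.ofReal_zero] at h8
    exact h8
  have h6 := tendstoInMeasure_of_tendsto_eLpNorm one_ne_zero
    (fun j => ((h2 j).mono (bias_le κ q |>.trans remote_le) le_rfl).aestronglyMeasurable)
    hFi.aestronglyMeasurable h5
  obtain ⟨ns, -, h7⟩ := h6.exists_seq_tendsto_ae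
  refine ⟨hf, fun x => limsup (fun i => h (ns i) x) atTop, ?_, ?_⟩
  · exact Measurable.limsup fun i => h2 (ns i)
  · filter_upwards [h7] with x h8
    exact h8.limsup_eq.symm

theorem good_pow (κ : Measure X) [IsProbabilityMeasure κ] {q k : ℤ} (h : k ≤ q) (j : ℕ) :
    Good κ q (fun x : X => (x k : ℝ) ^ j) :=
  ⟨int_pow κ k j, _, meas_mom κ h j, ae_eq_rfl⟩

theorem good_poly (κ : Measure X) [IsProbabilityMeasure κ] {q k : ℤ} (h : k ≤ q)
    (p : Polynomial ℝ) : Good κ q (fun x : X => p.eval (x k : ℝ)) := by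
  have h1 := good_sum (κ := κ) (q := q) (Finset.range (p.natDegree + 1)) (fun j => p.coeff j)
    (fun j x => (x k : ℝ) ^ j) (fun j _ => good_pow κ h j)
  refine good_congr (ae_of_all _ fun x => ?_) h1
  change _ = p.eval (x k : ℝ)
  rw [Finset.sum_apply, Polynomial.eval_eq_sum_range]
  rfl

theorem good_cont (κ : Measure X) [IsProbabilityMeasure κ] {q k : ℤ} (h : k ≤ q)
    (ψ : I1 → ℝ) (hψ : Continuous ψ) : Good κ q (fun x : X => ψ (x k)) := by
  have hm : Measurable fun x : X => ψ (x k) := hψ.measurable.comp (measurable_pi_apply k)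
  obtain ⟨D, hD⟩ : ∃ D : ℝ, ∀ a, |ψ a| ≤ D := by
    obtain ⟨D, hD⟩ := (isCompact_range hψ).isBounded.exists_norm_le
    exact ⟨D, fun x => hD _ ⟨x, rfl⟩⟩
  have hi : Integrable (fun x : X => ψ (x k)) κ :=
    Integrable.of_bound hm.aestronglyMeasurable D (ae_of_all _ fun x => by
      rw [Real.norm_eq_abs]
      exact hD _)
  refine good_lim hi fun e he => ?_
  have h11 : (-1 : ℝ) ≤ 1 := by norm_num
  obtain ⟨p, hp⟩ := exists_polynomial_near_of_continuousOn (-1) 1
    (Set.IccExtend h11 ψ) (hψ.Icc_extend').continuousOn e he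
  refine ⟨fun x => p.eval (x k : ℝ), good_poly κ h p, ?_⟩
  have h2 : ∀ x : X, |p.eval (x k : ℝ) - ψ (x k)| ≤ e := by
    intro x
    have h3 := hp (x k : ℝ) (x k).2
    rw [Set.IccExtend_of_mem h11 ψ (x k).2] at h3
    exact h3.le
  calc ∫ x, |p.eval (x k : ℝ) - ψ (x k)| ∂κ ≤ ∫ _x, e ∂κ :=
        integral_mono (((good_poly κ h p).1.sub hi).abs) (integrable_const _) h2
    _ = e := by simp

open Classical in
theorem good_ind (κ : Measure X) [IsProbabilityMeasure κ] {q k : ℤ} (h : k ≤ q)
    (s : Set I1) (hs : MeasurableSet s) :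
    Good κ q (((fun x : X => x k) ⁻¹' s).indicator (fun _ => (1 : ℝ))) := by
  have hmk : Measurable fun x : X => x k := measurable_pi_apply k
  have hi : Integrable (((fun x : X => x k) ⁻¹' s).indicator (fun _ => (1 : ℝ))) κ :=
    (integrable_const _).indicator (hmk hs)
  refine good_lim hi fun e he => ?_
  have : IsProbabilityMeasure (κ.map fun x : X => x k) :=
    Measure.isProbabilityMeasure_map hmk.aemeasurable
  have hi2 : Integrable (s.indicator (fun _ => (1 : ℝ))) (κ.map fun x : X => x k) :=
    (integrable_const _).indicator hs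
  obtain ⟨g, hg, hgi⟩ := hi2.exists_boundedContinuous_integral_sub_le he
  refine ⟨fun x => g (x k), good_cont κ h g g.continuous, ?_⟩
  have h2 : ∫ x, |g (x k) - ((fun x : X => x k) ⁻¹' s).indicator (fun _ => (1 : ℝ)) x| ∂κ =
      ∫ a, ‖s.indicator (fun _ => (1 : ℝ)) a - g a‖ ∂(κ.map fun x : X => x k) := by
    rw [integral_map hmk.aemeasurable]
    · refine integral_congr_ae (ae_of_all _ fun x => ?_)
      change _ = ‖s.indicator (fun _ => (1 : ℝ)) (x k) - g (x k)‖
      rw [Real.norm_eq_abs, abs_sub_comm]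
      rfl
    · exact ((measurable_const.indicator hs).sub g.continuous.measurable).norm.aestronglyMeasurable
  rw [h2]
  exact hg

/-- The conditional probability of a condition on finitely many coordinates. -/
theorem good_inter (κ : Measure X) [IsProbabilityMeasure κ]
    (hI : iCondIndepFun remote remote_le (fun (n : ℤ) (x : X) => x n) κ) (q : ℤ)
    (I : Finset ℤ) (hq : ∀ k ∈ I, k ≤ q) (s : ℤ → Set I1) (hs : ∀ k, MeasurableSet (s k)) :
    Good κ q ((⋂ k ∈ I, (fun x : X => x k) ⁻¹' s k).indicator (fun _ => (1 : ℝ))) := by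
  have hE : MeasurableSet (⋂ k ∈ I, (fun x : X => x k) ⁻¹' s k) :=
    Finset.measurableSet_biInter I fun k _ => measurable_pi_apply k (hs k)
  have h1 : ∀ k : ℤ, ∃ h : X → ℝ, k ∈ I → (Measurable[bias κ q] h ∧
      κ⟦(fun x : X => x k) ⁻¹' s k | remote⟧ =ᵐ[κ] h) := by
    intro k
    by_cases hk : k ∈ I
    · obtain ⟨-, h, h2, h3⟩ := good_ind κ (hq k hk) (s k) (hs k)
      exact ⟨h, fun _ => ⟨h2, h3⟩⟩
    · exact ⟨fun _ => 0, fun h => absurd h hk⟩
  choose h h2 using h1
  refine ⟨(integrable_const _).indicator hE, fun x => ∏ k ∈ I, h k x, ?_, ?_⟩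
  · exact Finset.measurable_fun_prod I fun k hk => (h2 k hk).1
  · have h3 := (iCondIndepFun_iff_condExp_inter_preimage_eq_mul (fun _ => inferInstance)
      (fun (n : ℤ) (x : X) => x n) (fun n => measurable_pi_apply n)).1 hI I (sets := s)
      (fun k _ => hs k)
    refine h3.trans ?_
    have h4 : ∀ᵐ x ∂κ, ∀ k ∈ I, (κ⟦(fun x : X => x k) ⁻¹' s k | remote⟧) x = h k x :=
      (Filter.eventually_all_finset I).2 fun k hk => (h2 k hk).2
    filter_upwards [h4] with x h4
    rw [Finset.prod_apply]
    exact Finset.prod_congr rfl h4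

open Classical in
/-- Local continuous functions of the past. -/
theorem good_local (κ : Measure X) [IsProbabilityMeasure κ]
    (hI : iCondIndepFun remote remote_le (fun (n : ℤ) (x : X) => x n) κ) (q : ℤ)
    (φ : X → ℝ) (H : ℕ) (hc : Continuous φ) (hm : Measurable[past q] φ) (hL : Local H φ) :
    Good κ q φ := by
  set I : Finset ℤ := (Finset.Icc (-(H : ℤ)) H).filter (· ≤ q) with hIdef
  have hmem : ∀ k : ℤ, k ∈ I ↔ (|k| ≤ H ∧ k ≤ q) := by
    intro k
    rw [hIdef, Finset.mem_filter, Finset.mem_Icc, abs_le]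
  have dep : ∀ x x' : X, (∀ k ∈ I, x k = x' k) → φ x = φ x' := by
    intro x x' h
    set x'' : X := fun k => if |k| ≤ H then x k else x' k with hx''
    have h1 : φ x = φ x'' := by
      refine hL _ _ fun k hk => ?_
      rw [hx'']
      simp only [hk, if_true]
    have h2 : φ x'' = φ x' := by
      refine past_dep q φ hm _ _ fun k hk => ?_
      rw [hx'']
      by_cases h3 : |k| ≤ (H : ℤ)
      · simp only [h3, if_true]
        exact h k ((hmem k).2 ⟨h3, hk⟩)
      · simp only [h3, if_false]
    exact h1.trans h2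
  obtain ⟨D, hD⟩ : ∃ D : ℝ, ∀ x, |φ x| ≤ D := by
    obtain ⟨D, hD⟩ := (isCompact_range hc).isBounded.exists_norm_le
    exact ⟨D, fun x => hD _ ⟨x, rfl⟩⟩
  have hφm : Measurable φ := hm.mono (past_le q) le_rfl
  have hφi : Integrable φ κ :=
    Integrable.of_bound hφm.aestronglyMeasurable D (ae_of_all _ fun x => by
      rw [Real.norm_eq_abs]
      exact hD x)
  -- simple approximations of the identity of `I1`
  set σ : ℕ → SimpleFunc I1 I1 := fun n =>
    SimpleFunc.approxOn (fun a : I1 => a) measurable_id Set.univ z1 (Set.mem_univ _) n with hσ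
  have hσt : ∀ a : I1, Tendsto (fun n => σ n a) atTop (𝓝 a) := fun a =>
    SimpleFunc.tendsto_approxOn (f := fun a : I1 => a) measurable_id (Set.mem_univ _)
      (by rw [closure_univ]; exact Set.mem_univ _)
  set T : ℕ → X → X := fun n x k => if k ∈ I then σ n (x k) else z1 with hTdef
  have hTm : ∀ n, Measurable (T n) := by
    intro n
    rw [measurable_pi_iff]
    intro k
    by_cases hk : k ∈ I
    · simp only [hTdef, hk, if_true]
      exact (σ n).measurable.comp (measurable_pi_apply k)
    · simp only [hTdef, hk, if_false]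
      exact measurable_const
  have hTt : ∀ x : X, Tendsto (fun n => φ (T n x)) atTop (𝓝 (φ x)) := by
    intro x
    have h1 : Tendsto (fun n => T n x) atTop (𝓝 fun k => if k ∈ I then x k else z1) := by
      rw [tendsto_pi_nhds]
      intro k
      by_cases hk : k ∈ I
      · simp only [hTdef, hk, if_true]
        exact hσt (x k)
      · simp only [hTdef, hk, if_false]
        exact tendsto_const_nhds
    have h2 : φ (fun k => if k ∈ I then x k else z1) = φ x := by
      refine dep _ _ fun k hk => ?_
      simp only [hk, if_true]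
    rw [← h2]
    exact (hc.tendsto _).comp h1
  have hgood : ∀ n, Good κ q (fun x => φ (T n x)) := by
    intro n
    set pat : (I → I1) → X := fun a k => if h : k ∈ I then a ⟨k, h⟩ else z1 with hpat
    set E : (I → I1) → Set X := fun a =>
      ⋂ k ∈ I, (fun x : X => x k) ⁻¹' (σ n ⁻¹' {pat a k}) with hE
    have h1 := good_sum (κ := κ) (q := q) (Fintype.piFinset fun _ : I => (σ n).range)
      (fun a => φ (pat a)) (fun a => (E a).indicator fun _ => (1 : ℝ))
      (fun a _ => good_inter κ hI q I (fun k hk => ((hmem k).1 hk).2)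
        (fun k => σ n ⁻¹' {pat a k})
        (fun k => (σ n).measurable (measurableSet_singleton _)))
    refine good_congr (ae_of_all _ fun x => ?_) h1
    rw [Finset.sum_apply, Finset.sum_eq_single (fun k : I => σ n (x k))]
    · have h2 : x ∈ E (fun k : I => σ n (x k)) := by
        simp only [hE, Set.mem_iInter, Set.mem_preimage, Set.mem_singleton_iff]
        intro k hk
        simp only [hpat, hk, dif_pos]
      rw [Pi.smul_apply, Set.indicator_of_mem h2, smul_eq_mul, mul_one]
      refine dep _ _ fun k hk => ?_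
      simp only [hpat, hTdef, hk, dif_pos, if_true]
    · intro a _ hai
      have h2 : x ∉ E a := by
        intro h3
        apply hai
        simp only [hE, Set.mem_iInter, Set.mem_preimage, Set.mem_singleton_iff] at h3
        funext k
        have h4 := h3 k k.2
        simp only [hpat, Finset.coe_mem, dif_pos] at h4
        exact h4.symm
      rw [Pi.smul_apply, Set.indicator_of_notMem h2, smul_zero]
    · intro h2
      refine absurd (Fintype.mem_piFinset.2 fun k => ?_) h2
      exact SimpleFunc.mem_range_self _ _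
  refine good_lim hφi fun e he => ?_
  have h1 : Tendsto (fun n => ∫ x, |φ (T n x) - φ x| ∂κ) atTop (𝓝 (∫ _x : X, (0 : ℝ) ∂κ)) := by
    refine tendsto_integral_of_dominated_convergence (fun _ => D + D)
      (fun n => (((hφm.comp (hTm n)).sub hφm).abs).aestronglyMeasurable) (integrable_const _)
      (fun n => ae_of_all _ fun x => ?_) (ae_of_all _ fun x => ?_)
    · rw [Real.norm_eq_abs, abs_abs]
      exact (abs_sub _ _).trans (add_le_add (hD _) (hD _))
    · have h2 := ((hTt x).sub_const (φ x)).abs
      rw [sub_self, abs_zero] at h2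
      exact h2
  rw [integral_zero] at h1
  obtain ⟨n, hn⟩ := (h1.eventually (gt_mem_nhds he)).exists
  exact ⟨_, hgood n, hn.le⟩

/-- [RGN] The conditional moments generate the remote past. -/
theorem pf_RGN (hA : T_APX) : T_RGN := by
  intro κ _ hI g C hg hC q
  have hgq : Measurable[past q] g := hg.mono (remote_le_past q) le_rfl
  have hgm : Measurable g := hg.mono remote_le le_rfl
  have hgi : Integrable g κ :=
    Integrable.of_bound hgm.aestronglyMeasurable C (ae_of_all _ fun x => by
      rw [Real.norm_eq_abs]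
      exact hC x)
  have h1 : Good κ q g := by
    refine good_lim hgi fun e he0 => ?_
    obtain ⟨φ, H, hφ, hφm, hL, hle⟩ := hA κ q g C hgq hC (e ^ 2) (by positivity)
    have hG := good_local κ hI q φ H hφ hφm hL
    have hφmm : Measurable φ := hφm.mono (past_le q) le_rfl
    obtain ⟨D, hD⟩ : ∃ D : ℝ, ∀ x, |φ x| ≤ D := by
      obtain ⟨D, hD⟩ := (isCompact_range hφ).isBounded.exists_norm_le
      exact ⟨D, fun x => hD _ ⟨x, rfl⟩⟩
    refine ⟨φ, hG, ?_⟩
    have h6 : ∀ x, |φ x - g x| ≤ (e + (g x - φ x) ^ 2 / e) / 2 := by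
      intro x
      rw [abs_sub_comm]
      have h8 : 0 ≤ (|g x - φ x| - e) ^ 2 := sq_nonneg _
      have h9 : (|g x - φ x| - e) ^ 2 = (g x - φ x) ^ 2 - 2 * e * |g x - φ x| + e ^ 2 := by
        rw [sub_sq, sq_abs]
        ring
      have h10 : (g x - φ x) ^ 2 / e * e = (g x - φ x) ^ 2 := by field_simp
      nlinarith
    have hsq : Integrable (fun x => (g x - φ x) ^ 2) κ := by
      refine Integrable.of_bound ((hgm.sub hφmm).pow_const 2).aestronglyMeasurable ((C + D) ^ 2)
        (ae_of_all _ fun x => ?_)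
      rw [Real.norm_eq_abs, abs_pow]
      have h7 : |g x - φ x| ≤ C + D := (abs_sub _ _).trans (add_le_add (hC x) (hD x))
      exact pow_le_pow_left₀ (abs_nonneg _) h7 2
    calc ∫ x, |φ x - g x| ∂κ ≤ ∫ x, (e + (g x - φ x) ^ 2 / e) / 2 ∂κ :=
          integral_mono (hG.1.sub hgi).abs
            ((((integrable_const _).add (hsq.div_const _))).div_const _) h6
      _ = (e + (∫ x, (g x - φ x) ^ 2 ∂κ) / e) / 2 := by
          rw [integral_div, integral_add (integrable_const _) (hsq.div_const _), integral_const,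
            integral_div]
          simp
      _ ≤ e := by
          have h7 : (∫ x, (g x - φ x) ^ 2 ∂κ) / e ≤ e := by
            rw [div_le_iff₀ he0]
            nlinarith
          linarith
  obtain ⟨-, h, h2, h3⟩ := h1
  refine ⟨h, h2, ?_⟩
  have h4 : κ[g | remote] = g := condExp_of_stronglyMeasurable remote_le
    hg.stronglyMeasurable hgi
  rw [h4] at h3
  exact h3

end Pool.Agent.H95.RPR
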